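import Pool.Agent.H97.RK.Targets

set_option autoImplicit false

namespace Pool.Agent.H34.RKS

open Finset Pool.Agent.H97.RK

theorem psa_cls {n k : ℕ} (z : Fin n → Bool) :
    (univ.filter fun g : Fin k → Fin n × Bool => ∀ i, z (g i).1 ≠ (g i).2).card = n ^ k := by
  classical
  have h1 : (univ.filter fun g : Fin k → Fin n × Bool => ∀ i, z (g i).1 ≠ (g i).2) =
      Fintype.piFinset fun _ : Fin k => univ.filter fun l : Fin n × Bool => z l.1 ≠ l.2 := by
    ext g
    simp only [mem_filter, mem_univ, true_and, Fintype.mem_piFinset]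
  have h2 : (univ.filter fun l : Fin n × Bool => z l.1 ≠ l.2).card = n := by
    have h3 : (univ.filter fun l : Fin n × Bool => z l.1 ≠ l.2) =
        univ.image fun v : Fin n => (v, !(z v)) := by
      ext l
      simp only [mem_filter, mem_univ, true_and, mem_image]
      constructor
      · intro h
        refine ⟨l.1, ?_⟩
        have : (!(z l.1)) = l.2 := by
          cases h4 : z l.1 <;> cases h5 : l.2 <;> simp [h4, h5] at h ⊢
        rw [this]
      · rintro ⟨v, rfl⟩
        cases z v <;> simp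
    rw [h3, card_image_of_injective, card_univ, Fintype.card_fin]
    intro a b h
    exact congrArg Prod.fst h
  rw [h1, Fintype.card_piFinset_const, h2]

theorem psa_good {n k : ℕ} (z : Fin n → Bool) :
    ((univ.filter fun g : Fin k → Fin n × Bool => ¬ ∀ i, z (g i).1 ≠ (g i).2).card : ℝ) =
      (1 - (1 / 2 : ℝ) ^ k) * (2 * n : ℝ) ^ k := by
  classical
  have h1 := card_filter_add_card_filter_not
    (s := (univ : Finset (Fin k → Fin n × Bool))) (fun g => ∀ i, z (g i).1 ≠ (g i).2)
  have h2 : (univ : Finset (Fin k → Fin n × Bool)).card = (2 * n) ^ k := by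
    rw [card_univ, Fintype.card_fun, Fintype.card_prod, Fintype.card_fin, Fintype.card_fin,
      Fintype.card_bool, Nat.mul_comm n 2]
  rw [psa_cls z, h2] at h1
  have h3 : ((n : ℝ) ^ k) + ((univ.filter fun g : Fin k → Fin n × Bool =>
      ¬ ∀ i, z (g i).1 ≠ (g i).2).card : ℝ) = (2 * n : ℝ) ^ k := by
    exact_mod_cast h1
  have h4 : (1 / 2 : ℝ) ^ k * (2 * n : ℝ) ^ k = (n : ℝ) ^ k := by
    rw [← mul_pow]
    congr 1
    ring
  rw [sub_mul, one_mul, h4]
  linarith

open Classical in
theorem pf_PSA : T_PSA := by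
  intro n k m hn
  have h1 : (univ.filter fun F : Fml n k m => ¬ ∀ z, ∃ c, Falsified (cls F c) z) ⊆
      univ.biUnion fun z : Fin n → Bool => Fintype.piFinset fun _ : Fin m =>
        univ.filter fun g : Fin k → Fin n × Bool => ¬ ∀ i, z (g i).1 ≠ (g i).2 := by
    intro F hF
    rw [mem_filter] at hF
    have h := hF.2
    rw [not_forall] at h
    obtain ⟨z, hz⟩ := h
    rw [mem_biUnion]
    refine ⟨z, mem_univ _, ?_⟩
    rw [Fintype.mem_piFinset]
    intro c
    rw [mem_filter]
    refine ⟨mem_univ _, ?_⟩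
    intro hc
    apply hz
    refine ⟨c, ?_⟩
    intro l hl
    unfold cls at hl
    rw [mem_image] at hl
    obtain ⟨i, _, rfl⟩ := hl
    exact hc i
  have h2 : ((univ.filter fun F : Fml n k m => ¬ ∀ z, ∃ c, Falsified (cls F c) z).card : ℝ) ≤
      ∑ z : Fin n → Bool, ((Fintype.piFinset fun _ : Fin m =>
        univ.filter fun g : Fin k → Fin n × Bool => ¬ ∀ i, z (g i).1 ≠ (g i).2).card : ℝ) := by
    exact_mod_cast (card_le_card h1).trans card_biUnion_le
  refine h2.trans ?_
  have h3 : ∀ z : Fin n → Bool, ((Fintype.piFinset fun _ : Fin m =>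
        univ.filter fun g : Fin k → Fin n × Bool => ¬ ∀ i, z (g i).1 ≠ (g i).2).card : ℝ) =
      ((1 - (1 / 2 : ℝ) ^ k) * (2 * n : ℝ) ^ k) ^ m := by
    intro z
    rw [Fintype.card_piFinset_const, Nat.cast_pow, psa_good z]
  rw [sum_congr rfl fun z _ => h3 z, sum_const, card_univ, Fintype.card_fun, Fintype.card_fin,
    Fintype.card_bool, nsmul_eq_mul, mul_pow]
  push_cast
  rw [mul_assoc]

end Pool.Agent.H34.RKS
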